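import Pool.Agent.MP_301441_lc.Defs
import Pool.Agent.MP_301441_lc.Hard
import Pool.Agent.MP_301441_lc.Easy

/-! # Equations with abelianisation constraints in trace monoids: the classification

The alphabet is `A = {0, …, k-1}` and `I` is an irreflexive symmetric relation on `A`. The
problem `(DP,ab)` for the trace monoid `M(A,I)` is decidable if and only if `I` consists of all
pairs of distinct letters, that is, if and only if `M(A,I)` is free commutative. In particular it
is undecidable for every trace monoid which is neither free nor free commutative. -/

namespace Pool.Agent.Results.MP_301441_lc.Classification

open Pool.Agent.TraceDP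

/-- For every finite alphabet `A = {0, …, k-1}` and every irreflexive symmetric `I`, the
Diophantine problem with abelianisation constraints for `M(A,I)` is decidable if and only if `I`
contains all pairs of distinct letters. -/
theorem result (k : ℕ) (I : Fin k → Fin k → Prop) (_hirr : ∀ a, ¬ I a a)
    (hsymm : ∀ a b, I a b → I b a) :
    ComputablePred (Solvable I) ↔ ∀ a b, a ≠ b → I a b := by
  constructor
  · intro hC a b hab
    by_contra h1
    exact not_computable I a b hab h1 (fun h2 => h1 (hsymm _ _ h2)) hC
  · exact computable_solvable

end Pool.Agent.Results.MP_301441_lc.Classification
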